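import Mathlib

set_option autoImplicit false

namespace Pool.Agent.Q247194.Basin

open Filter Topology

/-! ### Windows -/

/-- the maximum of `A` over the window `j, …, j + M` -/
noncomputable def hi (A : ℕ → ℝ) (M j : ℕ) : ℝ :=
  (Finset.range (M + 1)).sup' ⟨0, by simp⟩ fun i => A (j + i)

lemma le_hi (A : ℕ → ℝ) (M j i : ℕ) (h : i ≤ M) : A (j + i) ≤ hi A M j :=
  Finset.le_sup' (fun i => A (j + i)) (by simpa [Nat.lt_succ_iff] using h)

lemma hi_le (A : ℕ → ℝ) (M j : ℕ) (B : ℝ) (h : ∀ i ≤ M, A (j + i) ≤ B) : hi A M j ≤ B :=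
  Finset.sup'_le _ _ fun i hi => h i (by simpa [Nat.lt_succ_iff] using hi)

lemma exists_hi (A : ℕ → ℝ) (M j : ℕ) : ∃ i ≤ M, A (j + i) = hi A M j := by
  obtain ⟨i, hi1, hi2⟩ := Finset.exists_mem_eq_sup' (s := Finset.range (M + 1)) ⟨0, by simp⟩
    (fun i => A (j + i))
  exact ⟨i, by simpa [Nat.lt_succ_iff] using hi1, hi2.symm⟩

/-- The bound for a window passes to the next value. -/
def Inv (A : ℕ → ℝ) (M : ℕ) : Prop :=
  ∀ (B : ℝ) (t : ℕ), (∀ i ≤ M, A (t + i) ≤ B) → A (t + M + 1) ≤ B

lemma Inv.all {A : ℕ → ℝ} {M : ℕ} (h : Inv A M) {B : ℝ} {t : ℕ} (hB : ∀ i ≤ M, A (t + i) ≤ B) :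
    ∀ n, A (t + n) ≤ B := by
  intro n
  induction n using Nat.strong_induction_on with
  | _ n ih =>
    rcases Nat.lt_or_ge M n with hn | hn
    · obtain ⟨m, rfl⟩ : ∃ m, n = m + M + 1 := ⟨n - M - 1, by omega⟩
      have := h B (t + m) fun i hi => by
        have := ih (m + i) (by omega)
        rwa [← add_assoc] at this
      have e : t + (m + M + 1) = t + m + M + 1 := by ring
      rw [e]
      exact this
    · exact hB n hn

lemma Inv.le {A : ℕ → ℝ} {M : ℕ} (h : Inv A M) (j n : ℕ) : A (j + n) ≤ hi A M j :=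
  h.all (fun i hi' => le_hi A M j i hi') n

lemma Inv.anti {A : ℕ → ℝ} {M : ℕ} (h : Inv A M) : Antitone (hi A M) := by
  refine antitone_nat_of_succ_le fun j => hi_le _ _ _ _ fun i _ => ?_
  have := h.le j (1 + i)
  rwa [← add_assoc] at this

lemma tendsto_of_lower {A : ℕ → ℝ} {M : ℕ} (h : Inv A M) {c : ℝ} (hc : ∀ j, c ≤ hi A M j) :
    ∃ H : ℝ, Tendsto (hi A M) atTop (𝓝 H) := by
  have hb : BddBelow (Set.range (hi A M)) := ⟨c, by rintro _ ⟨j, rfl⟩; exact hc j⟩
  exact ⟨_, tendsto_atTop_ciInf h.anti hb⟩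

/-! ### Paths -/

lemma path {f : ℕ → ℕ → ℝ} {p q J : ℕ} {U : ℝ}
    (hp : ∀ e t, J ≤ t → (1 / 2) * (U - f e t) ≤ U - f (e + 1) (t + p))
    (hq : ∀ e t, J ≤ t → (1 / 2) * (U - f e t) ≤ U - f (e + 1) (t + q)) :
    ∀ x y e t : ℕ, J ≤ t →
      (1 / 2 : ℝ) ^ (x + y) * (U - f e t) ≤ U - f (e + (x + y)) (t + (x * p + y * q)) := by
  intro x
  induction x with
  | zero =>
    intro y
    induction y with
    | zero => intro e t _; simp
    | succ y ih =>
      intro e t ht
      have h1 := hq e t ht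
      have h2 := ih (e + 1) (t + q) (by omega)
      have h3 : (1 / 2 : ℝ) ^ (0 + (y + 1)) * (U - f e t) = (1 / 2 : ℝ) ^ (0 + y) * ((1 / 2) * (U - f e t)) := by
        ring
      rw [h3]
      have h4 : e + (0 + (y + 1)) = e + 1 + (0 + y) := by ring
      have h5 : t + (0 * p + (y + 1) * q) = t + q + (0 * p + y * q) := by ring
      rw [h4, h5]
      exact (mul_le_mul_of_nonneg_left h1 (by positivity)).trans h2
  | succ x ih =>
    intro y e t ht
    have h1 := hp e t ht
    have h2 := ih y (e + 1) (t + p) (by omega)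
    have h3 : (1 / 2 : ℝ) ^ (x + 1 + y) * (U - f e t) = (1 / 2 : ℝ) ^ (x + y) * ((1 / 2) * (U - f e t)) := by
      ring
    rw [h3]
    have h4 : e + (x + 1 + y) = e + 1 + (x + y) := by ring
    have h5 : t + ((x + 1) * p + y * q) = t + p + (x * p + y * q) := by ring
    rw [h4, h5]
    exact (mul_le_mul_of_nonneg_left h1 (by positivity)).trans h2

lemma pow_half_le {n T : ℕ} (h : n ≤ T) {a : ℝ} (ha : 0 ≤ a) :
    (1 / 2 : ℝ) ^ T * a ≤ (1 / 2 : ℝ) ^ n * a :=
  mul_le_mul_of_nonneg_right (pow_le_pow_of_le_one (by norm_num) (by norm_num) h) ha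

/-- representation of large numbers -/
lemma repr {a b n : ℕ} (h : Nat.Coprime a b) (hn : a * b ≤ n) :
    ∃ x y : ℕ, x * a + y * b = n := by
  obtain ⟨x, y, hxy⟩ := Nat.exists_add_mul_eq_of_gcd_dvd_of_mul_pred_le a b n
    (by rw [h]; exact one_dvd _) (by
      exact (Nat.mul_le_mul (Nat.pred_le _) (Nat.pred_le _)).trans hn)
  exact ⟨x, y, by linarith⟩

lemma steps_le {a b x y : ℕ} (ha : 1 ≤ a) (hb : 1 ≤ b) : x + y ≤ x * a + y * b := by
  nlinarith [Nat.zero_le x, Nat.zero_le y, Nat.mul_le_mul_left x ha, Nat.mul_le_mul_left y hb]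

/-! ### Means -/

lemma am_bound {u v U : ℝ} (hv : v ≤ U) : (1 / 2) * (U - u) ≤ U - (u + v) / 2 := by linarith

lemma hm_le_am {u v : ℝ} (hu : 0 < u) (hv : 0 < v) : 2 / (1 / u + 1 / v) ≤ (u + v) / 2 := by
  have h1 : (0 : ℝ) < u + v := by positivity
  have h2 : 2 / (1 / u + 1 / v) = 2 * (u * v) / (u + v) := by
    field_simp
    ring
  rw [h2, div_le_div_iff₀ h1 (by norm_num)]
  nlinarith [sq_nonneg (u - v)]

lemma hm_ge {u v c : ℝ} (hu : 0 < u) (hv : 0 < v) (h1 : c ≤ u) (h2 : c ≤ v) :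
    c ≤ 2 / (1 / u + 1 / v) := by
  rcases le_or_gt c 0 with hc | hc
  · exact hc.trans (by positivity)
  · rw [le_div_iff₀ (by positivity)]
    have h3 : c * (1 / u) ≤ 1 := by rw [mul_one_div, div_le_one hu]; exact h1
    have h4 : c * (1 / v) ≤ 1 := by rw [mul_one_div, div_le_one hv]; exact h2
    linarith [mul_add c (1 / u) (1 / v)]

/-- `w` is the arithmetic or the harmonic mean of `u` and `v` -/
def Mean (w u v : ℝ) : Prop := w = (u + v) / 2 ∨ w = 2 / (1 / u + 1 / v)

lemma Mean.le_am {w u v : ℝ} (h : Mean w u v) (hu : 0 < u) (hv : 0 < v) : w ≤ (u + v) / 2 := by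
  rcases h with h | h
  · exact h.le
  · rw [h]; exact hm_le_am hu hv

lemma Mean.ge {w u v c : ℝ} (h : Mean w u v) (hu : 0 < u) (hv : 0 < v) (h1 : c ≤ u) (h2 : c ≤ v) :
    c ≤ w := by
  rcases h with h | h
  · rw [h]; linarith
  · rw [h]; exact hm_ge hu hv h1 h2

lemma mean_inv {a b M : ℕ} (ha : 1 ≤ a) (hb : 1 ≤ b)
    (haM : a ≤ M + 1) (hbM : b ≤ M + 1) {w : ℕ → ℝ} (hw : ∀ n, 0 < w n)
    (h : ∀ t, M + 1 ≤ t → Mean (w t) (w (t - a)) (w (t - b))) : Inv w M := by
  intro B t hB
  have h1 := (h (t + M + 1) (by omega)).le_am (hw _) (hw _)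
  have h2 := hB (M + 1 - a) (by omega)
  have h3 := hB (M + 1 - b) (by omega)
  have e2 : t + (M + 1 - a) = t + M + 1 - a := by omega
  have e3 : t + (M + 1 - b) = t + M + 1 - b := by omega
  rw [e2] at h2
  rw [e3] at h3
  linarith

lemma mean_inv_neg {a b M : ℕ} (ha : 1 ≤ a) (hb : 1 ≤ b)
    (haM : a ≤ M + 1) (hbM : b ≤ M + 1) {w : ℕ → ℝ} (hw : ∀ n, 0 < w n)
    (h : ∀ t, M + 1 ≤ t → Mean (w t) (w (t - a)) (w (t - b))) : Inv (fun n => - w n) M := by
  intro B t hB
  have h2 := hB (M + 1 - a) (by omega)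
  have h3 := hB (M + 1 - b) (by omega)
  have e2 : t + (M + 1 - a) = t + M + 1 - a := by omega
  have e3 : t + (M + 1 - b) = t + M + 1 - b := by omega
  rw [e2] at h2
  rw [e3] at h3
  have h1 := (h (t + M + 1) (by omega)).ge (c := - B) (hw _) (hw _) (by simp only at h2; linarith)
    (by simp only at h3; linarith)
  show - w (t + M + 1) ≤ B
  linarith

/-- Delayed arithmetic-harmonic iterations with coprime delays converge. -/
theorem mean_converges {a b M : ℕ} (ha : 1 ≤ a) (hb : 1 ≤ b) (hab : Nat.Coprime a b)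
    (haM : a ≤ M + 1) (hbM : b ≤ M + 1) {w : ℕ → ℝ} (hw : ∀ n, 0 < w n)
    (h : ∀ t, M + 1 ≤ t → Mean (w t) (w (t - a)) (w (t - b))) :
    ∃ c : ℝ, 0 < c ∧ Tendsto w atTop (𝓝 c) := by
  have inv1 : Inv w M := mean_inv ha hb haM hbM hw h
  have inv2 : Inv (fun n => - w n) M := mean_inv_neg ha hb haM hbM hw h
  set f1 := hi w M with hf1
  set f2 := hi (fun n => - w n) M with hf2
  have b1 : ∀ j n, w (j + n) ≤ f1 j := fun j n => inv1.le j n
  have b2 : ∀ j n, - w (j + n) ≤ f2 j := fun j n => inv2.le j n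
  have b10 : ∀ j, w j ≤ f1 j := fun j => by simpa using b1 j 0
  have b20 : ∀ j, - w j ≤ f2 j := fun j => by simpa using b2 j 0
  obtain ⟨H1, hH1⟩ := tendsto_of_lower inv1 (c := 0) fun j => (hw j).le.trans (b10 j)
  obtain ⟨H2, hH2⟩ := tendsto_of_lower inv2 (c := - f1 0) fun j => by
    have h1 := b20 j
    have h2 := b1 0 j
    rw [zero_add] at h2
    have h3 : f2 j = hi (fun n => - w n) M j := rfl
    linarith
  -- contraction
  set T := 2 * M + a * b + 1 with hT
  have key : ∀ j, f1 (j + (2 * M + 1 + a * b)) ≤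
      f1 j - (1 / 2 : ℝ) ^ (T + M) * (f1 j + f2 (j + M + 1)) := by
    intro j
    obtain ⟨i, hiM, hi⟩ := exists_hi (fun n => - w n) M (j + M + 1)
    have hi' : - w (j + M + 1 + i) = f2 (j + M + 1) := hi
    refine hi_le _ _ _ _ fun s hs => ?_
    have hp : ∀ c : ℕ, 1 ≤ c → c ≤ M + 1 → (c = a ∨ c = b) → ∀ (e : ℕ) (t : ℕ), j + M + 1 ≤ t →
        (1 / 2) * (f1 j - w t) ≤ f1 j - w (t + c) := by
      intro c hc hcM hcab e t ht
      have h1 := (h (t + c) (by omega)).le_am (hw _) (hw _)
      have hA : ∀ s, j ≤ s → w s ≤ f1 j := fun s hs => by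
        have := b1 j (s - j)
        rwa [Nat.add_sub_cancel' hs] at this
      rcases hcab with rfl | rfl
      · have e1 : t + c - c = t := by omega
        rw [e1] at h1
        have h2 := hA (t + c - b) (by omega)
        linarith
      · have e1 : t + c - c = t := by omega
        rw [e1] at h1
        have h2 := hA (t + c - a) (by omega)
        linarith
    have hn : a * b ≤ (j + (2 * M + 1 + a * b) + s) - (j + M + 1 + i) := by omega
    obtain ⟨x, y, hxy⟩ := repr hab hn
    have hpath := path (f := fun _ t => w t) (p := a) (q := b) (J := j + M + 1) (U := f1 j)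
      (fun e t ht => hp a ha haM (Or.inl rfl) e t ht) (fun e t ht => hp b hb hbM (Or.inr rfl) e t ht)
      x y 0 (j + M + 1 + i) (by omega)
    have e1 : j + M + 1 + i + (x * a + y * b) = j + (2 * M + 1 + a * b) + s := by omega
    rw [e1] at hpath
    have hst := steps_le (x := x) (y := y) ha hb
    have h5 : 0 ≤ f1 j - w (j + M + 1 + i) := by
      have := b1 j (M + 1 + i)
      have e : j + (M + 1 + i) = j + M + 1 + i := by ring
      rw [e] at this
      linarith
    have h6 := pow_half_le (n := x + y) (T := T + M) (by omega) h5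
    have h7 : f1 j + f2 (j + M + 1) = f1 j - w (j + M + 1 + i) := by rw [← hi']; ring
    rw [h7]
    linarith
  have hlim : H1 ≤ H1 - (1 / 2 : ℝ) ^ (T + M) * (H1 + H2) := by
    refine le_of_tendsto_of_tendsto' (hH1.comp (tendsto_add_atTop_nat (2 * M + 1 + a * b)))
      (hH1.sub (Tendsto.const_mul _ (hH1.add (hH2.comp (tendsto_add_atTop_nat (M + 1)))))) ?_
    intro j
    simp only [Function.comp]
    have := key j
    rw [add_assoc j M 1] at this
    exact this
  have h0 : (0 : ℝ) < (1 / 2) ^ (T + M) := by positivity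
  have hle : H1 + H2 ≤ 0 := by
    by_contra hcon
    push Not at hcon
    have := mul_pos h0 hcon
    linarith
  have hge : 0 ≤ H1 + H2 := by
    refine ge_of_tendsto' (hH1.add hH2) fun j => ?_
    have h1 := b10 j
    have h2 := b20 j
    have h3 : f2 j = hi (fun n => - w n) M j := rfl
    have h4 : f1 j = hi w M j := rfl
    linarith
  have hEq : - H2 = H1 := by linarith
  have hw1 : Tendsto w atTop (𝓝 H1) := by
    refine tendsto_of_tendsto_of_tendsto_of_le_of_le (hEq ▸ hH2.neg) hH1 (fun j => ?_) (fun j => b10 j)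
    have h2 := b20 j
    have h3 : f2 j = hi (fun n => - w n) M j := rfl
    show - hi (fun n => - w n) M j ≤ w j
    linarith
  refine ⟨H1, ?_, hw1⟩
  -- positivity of the limit
  have hlow : ∀ n, - f2 0 ≤ w n := fun n => by
    have := b2 0 n
    rw [zero_add] at this
    linarith
  obtain ⟨i, -, hiE⟩ := exists_hi (fun n => - w n) M 0
  have hpos : 0 < - f2 0 := by
    have h3 : f2 0 = hi (fun n => - w n) M 0 := rfl
    rw [h3, ← hiE]
    simp only [neg_neg]
    exact hw _
  exact lt_of_lt_of_le hpos (ge_of_tendsto' hw1 hlow)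

lemma repr_parity {a b n : ℕ} (h : Nat.Coprime a b) (hodd : Odd (a + b)) (hn : 2 * (a * b) ≤ n)
    (d : ℕ) : ∃ x y : ℕ, x * a + y * b = n ∧ Even (x + y + d) := by
  obtain ⟨x, y, hxy⟩ := repr (n := n - a * b) h (by omega)
  rcases Nat.even_or_odd (x + y + b + d) with he | ho
  · refine ⟨x + b, y, ?_, ?_⟩
    · have : (x + b) * a + y * b = (x * a + y * b) + a * b := by ring
      omega
    · have : x + b + y + d = x + y + b + d := by ring
      rwa [this]
  · refine ⟨x, y + a, ?_, ?_⟩
    · have : x * a + (y + a) * b = (x * a + y * b) + a * b := by ring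
      omega
    · have h1 : Even ((x + y + b + d) + (a + b)) := ho.add_odd hodd
      have h2 : (x + y + b + d) + (a + b) = (x + (y + a) + d) + 2 * b := by ring
      rw [h2] at h1
      exact (Nat.even_add.1 h1).2 (even_two_mul b)

/-- The case in which the two delays, divided by their common divisor, have different parity. -/
theorem odd_converges {g a b M : ℕ} (hg : 1 ≤ g) (ha : 1 ≤ a) (hb : 1 ≤ b) (hab : Nat.Coprime a b)
    (hodd : Odd (a + b)) (haM : g * a ≤ M + 1) (hbM : g * b ≤ M + 1) {s : ℕ → ℝ}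
    (hs : ∀ n, 0 < s n)
    (h : ∀ t, M + 1 ≤ t → s t = (1 / s (t - g * a) + 1 / s (t - g * b)) / 2) :
    Tendsto s atTop (𝓝 1) := by
  have hp1 : 1 ≤ g * a := Nat.mul_pos hg ha
  have hq1 : 1 ≤ g * b := Nat.mul_pos hg hb
  set A : ℕ → ℝ := fun n => max (s n) (1 / s n) with hA
  have hA1 : ∀ n, 1 ≤ A n := by
    intro n
    rcases le_total 1 (s n) with h1 | h1
    · exact h1.trans (le_max_left _ _)
    · refine le_trans ?_ (le_max_right _ _)
      rw [le_div_iff₀ (hs n)]
      linarith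
  have hinv : ∀ t, M + 1 ≤ t → 1 / s t = 2 / (1 / s (t - g * a) + 1 / s (t - g * b)) := by
    intro t ht
    rw [h t ht]
    rw [one_div_div]
  have inv1 : Inv A M := by
    intro B t hB
    have h2 := hB (M + 1 - g * a) (by omega)
    have h3 := hB (M + 1 - g * b) (by omega)
    have e2 : t + (M + 1 - g * a) = t + M + 1 - g * a := by omega
    have e3 : t + (M + 1 - g * b) = t + M + 1 - g * b := by omega
    rw [e2] at h2
    rw [e3] at h3
    have h4 := (le_max_left _ _).trans h2
    have h5 := (le_max_right _ _).trans h2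
    have h6 := (le_max_left _ _).trans h3
    have h7 := (le_max_right _ _).trans h3
    refine max_le ?_ ?_
    · rw [h (t + M + 1) (by omega)]
      linarith
    · rw [hinv (t + M + 1) (by omega)]
      have := hm_le_am (hs (t + M + 1 - g * a)) (hs (t + M + 1 - g * b))
      linarith
  set f1 := hi A M with hf1
  have b1 : ∀ j n, A (j + n) ≤ f1 j := fun j n => inv1.le j n
  have b10 : ∀ j, A j ≤ f1 j := fun j => by simpa using b1 j 0
  obtain ⟨H1, hH1⟩ := tendsto_of_lower inv1 (c := 1) fun j => (hA1 j).trans (b10 j)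
  set N0 := M + 1 + g + g * (2 * (a * b)) with hN0
  set T := g + g * (2 * (a * b)) + M with hT
  have key : ∀ j, f1 (j + N0) ≤ f1 j - (1 / 2 : ℝ) ^ T * (f1 j - 1) := by
    intro j
    have hU : ∀ t, j ≤ t → s t ≤ f1 j ∧ 1 / s t ≤ f1 j := fun t ht => by
      have := b1 j (t - j)
      rw [Nat.add_sub_cancel' ht] at this
      exact ⟨(le_max_left _ _).trans this, (le_max_right _ _).trans this⟩
    have hU1 : 1 ≤ f1 j := (hA1 j).trans (b10 j)
    set f : ℕ → ℕ → ℝ := fun e t => if Even e then s t else 1 / s t with hf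
    have hstep : ∀ c : ℕ, 1 ≤ c → c ≤ M + 1 → (c = g * a ∨ c = g * b) → ∀ (e : ℕ) (t : ℕ),
        j + M + 1 ≤ t → (1 / 2) * (f1 j - f e t) ≤ f1 j - f (e + 1) (t + c) := by
      intro c hc hcM hcab e t ht
      have e1 : t + c - c = t := by omega
      rcases Nat.even_or_odd e with he | he
      · have he1 : ¬ Even (e + 1) := by
          rw [Nat.not_even_iff_odd]; exact he.add_one
        simp only [hf, if_pos he, if_neg he1]
        rw [hinv (t + c) (by omega)]
        have h1 := hm_le_am (hs (t + c - g * a)) (hs (t + c - g * b))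
        rcases hcab with rfl | rfl
        · rw [e1] at h1 ⊢
          have h2 := (hU (t + g * a - g * b) (by omega)).1
          linarith
        · rw [e1] at h1 ⊢
          have h2 := (hU (t + g * b - g * a) (by omega)).1
          linarith
      · have he0 : ¬ Even e := by rw [Nat.not_even_iff_odd]; exact he
        have he1 : Even (e + 1) := he.add_one
        simp only [hf, if_neg he0, if_pos he1]
        rw [h (t + c) (by omega)]
        rcases hcab with rfl | rfl
        · rw [e1]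
          have h2 := (hU (t + g * a - g * b) (by omega)).2
          linarith
        · rw [e1]
          have h2 := (hU (t + g * b - g * a) (by omega)).2
          linarith
    refine hi_le _ _ _ _ fun r hr => ?_
    -- the base point
    set D := g + g * (2 * (a * b)) + r with hD
    have hDg : g * (D / g) + D % g = D := Nat.div_add_mod D g
    have hmod : D % g < g := Nat.mod_lt _ (by omega)
    have hN : 2 * (a * b) ≤ D / g := by
      rw [Nat.le_div_iff_mul_le (by omega), mul_comm]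
      omega
    set i := j + M + 1 + D % g with hi0
    have hreach : ∀ e0 e1 : ℕ, f e0 i ≤ 1 →
        f e1 (j + N0 + r) ≤ f1 j - (1 / 2 : ℝ) ^ T * (f1 j - 1) := by
      intro e0 e1 hbase
      obtain ⟨x, y, hxy, hpar⟩ := repr_parity hab hodd hN (e0 + e1)
      have hpath := path (f := f) (p := g * a) (q := g * b) (J := j + M + 1) (U := f1 j)
        (fun e t ht => hstep _ hp1 haM (Or.inl rfl) e t ht)
        (fun e t ht => hstep _ hq1 hbM (Or.inr rfl) e t ht) x y e0 i (by omega)
      have e2 : i + (x * (g * a) + y * (g * b)) = j + N0 + r := by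
        have : x * (g * a) + y * (g * b) = g * (x * a + y * b) := by ring
        rw [this, hxy]
        omega
      rw [e2] at hpath
      have e3 : f (e0 + (x + y)) (j + N0 + r) = f e1 (j + N0 + r) := by
        have h1 : Even (e0 + (x + y)) ↔ Even e1 := by
          have h2 : Even ((e0 + (x + y)) + e1) := by
            have : (e0 + (x + y)) + e1 = x + y + (e0 + e1) := by ring
            rwa [this]
          exact Nat.even_add.1 h2
        simp only [hf, h1]
      rw [e3] at hpath
      have hst := steps_le (x := x) (y := y) ha hb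
      have h5 : (0 : ℝ) ≤ f1 j - 1 := by linarith
      have hle : x + y ≤ T := by
        have h8 : D / g ≤ D := Nat.div_le_self _ _
        omega
      have h6 := pow_half_le (n := x + y) (T := T) hle h5
      have h9 : (1 / 2 : ℝ) ^ (x + y) * (f1 j - 1) ≤ (1 / 2 : ℝ) ^ (x + y) * (f1 j - f e0 i) :=
        mul_le_mul_of_nonneg_left (by linarith) (by positivity)
      linarith
    have hbase : f 0 i ≤ 1 ∨ f 1 i ≤ 1 := by
      rcases le_total (s i) 1 with h1 | h1
      · left; simpa [hf] using h1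
      · right
        simp only [hf, Nat.not_even_one, if_false]
        rw [div_le_one (hs i)]
        exact h1
    have hall : ∀ e1, f e1 (j + N0 + r) ≤ f1 j - (1 / 2 : ℝ) ^ T * (f1 j - 1) := by
      intro e1
      rcases hbase with hb0 | hb0
      · exact hreach 0 e1 hb0
      · exact hreach 1 e1 hb0
    refine max_le ?_ ?_
    · simpa [hf] using hall 0
    · simpa [hf] using hall 1
  have hlim : H1 ≤ H1 - (1 / 2 : ℝ) ^ T * (H1 - 1) := by
    refine le_of_tendsto_of_tendsto' (hH1.comp (tendsto_add_atTop_nat N0))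
      (hH1.sub (Tendsto.const_mul _ (hH1.sub_const 1))) ?_
    intro j
    exact key j
  have h0 : (0 : ℝ) < (1 / 2) ^ T := by positivity
  have hle : H1 ≤ 1 := by
    by_contra hcon
    push Not at hcon
    have := mul_pos h0 (sub_pos.2 hcon)
    linarith
  have hge : 1 ≤ H1 := ge_of_tendsto' hH1 fun j => (hA1 j).trans (b10 j)
  have hH : H1 = 1 := le_antisymm hle hge
  rw [hH] at hH1
  refine tendsto_of_tendsto_of_tendsto_of_le_of_le (g := fun j => 1 / hi A M j)
    (by simpa using (hH1.inv₀ one_ne_zero)) hH1 (fun j => ?_)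
    (fun j => (le_max_left _ _).trans (b10 j))
  have h1 : 1 / s j ≤ hi A M j := (le_max_right _ _).trans (b10 j)
  have h2 : 0 < hi A M j := lt_of_lt_of_le one_pos ((hA1 j).trans (b10 j))
  rw [div_le_iff₀ h2]
  rw [div_le_iff₀ (hs j)] at h1
  linarith

/-! ### The difference equation -/

/-- `x` solves `x_{n+1} = 1/x_{n-k} + 1/x_{n-l}` for all `n ≥ 0`. Here `x n` stands for the term
`x_{n-m}` of the problem, `m = max k l`, so that the initial values are `x 0, …, x m`. -/
def Solution (k l : ℕ) (x : ℕ → ℝ) : Prop :=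
  ∀ n, x (n + max k l + 1) = 1 / x (n + max k l - k) + 1 / x (n + max k l - l)

/-- The basin of the equilibrium `√2`, as a set of vectors of initial values. -/
def Basin (k l : ℕ) : Set (Fin (max k l + 1) → ℝ) :=
  {v | (∀ i, 0 < v i) ∧ ∃ x : ℕ → ℝ, (∀ i : Fin (max k l + 1), x i = v i) ∧ Solution k l x ∧
    Tendsto x atTop (𝓝 √2)}

/-- The greatest common divisor of `k + 1` and `l + 1`. -/
def gg (k l : ℕ) : ℕ := Nat.gcd (k + 1) (l + 1)

lemma gg_pos (k l : ℕ) : 0 < gg k l := Nat.gcd_pos_of_pos_left _ (Nat.succ_pos k)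

/-- The residue of `n` modulo `g = gcd (k + 1) (l + 1)`. -/
def res (k l n : ℕ) : Fin (gg k l) := ⟨n % gg k l, Nat.mod_lt _ (gg_pos k l)⟩

/-- The action of `g` factors on vectors of initial values: the `i`-th entry is multiplied by
`ρ_r`, `r = i mod g`, if `⌊i / g⌋` is even, and divided by `ρ_r` if `⌊i / g⌋` is odd. -/
noncomputable def scale (k l : ℕ) (ρ : Fin (gg k l) → ℝ) (v : Fin (max k l + 1) → ℝ) :
    Fin (max k l + 1) → ℝ :=
  fun i => if Even ((i : ℕ) / gg k l) then ρ (res k l i) * v i else v i / ρ (res k l i)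

lemma setup (k l : ℕ) : ∃ a b : ℕ, 1 ≤ a ∧ 1 ≤ b ∧ Nat.Coprime a b ∧ k + 1 = gg k l * a ∧
    l + 1 = gg k l * b := by
  obtain ⟨a, b, hab, h1, h2⟩ := Nat.exists_coprime (k + 1) (l + 1)
  refine ⟨a, b, ?_, ?_, hab, by rw [gg, mul_comm]; exact h1, by rw [gg, mul_comm]; exact h2⟩
  · rcases Nat.eq_zero_or_pos a with h | h
    · rw [h] at h1; omega
    · exact h
  · rcases Nat.eq_zero_or_pos b with h | h
    · rw [h] at h2; omega
    · exact h

lemma val_iff {g a b : ℕ} (hg : 1 ≤ g) (ha : 1 ≤ a) (hb : 1 ≤ b) (hab : Nat.Coprime a b) :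
    padicValNat 2 (g * a) = padicValNat 2 (g * b) ↔ (Odd a ∧ Odd b) := by
  rw [padicValNat.mul (by omega) (by omega), padicValNat.mul (by omega) (by omega)]
  constructor
  · intro h
    have h1 : padicValNat 2 a = padicValNat 2 b := by omega
    have ha2 : ¬ 2 ∣ a := by
      intro hd
      have h2 := one_le_padicValNat_of_dvd (p := 2) (by omega : a ≠ 0) hd
      rw [h1] at h2
      have hd2 : 2 ∣ b := dvd_of_one_le_padicValNat h2
      have := Nat.dvd_gcd hd hd2
      rw [hab] at this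
      omega
    have hb2 : ¬ 2 ∣ b := by
      intro hd
      have h2 := one_le_padicValNat_of_dvd (p := 2) (by omega : b ≠ 0) hd
      rw [← h1] at h2
      exact ha2 (dvd_of_one_le_padicValNat h2)
    exact ⟨Nat.odd_iff.2 (by omega), Nat.odd_iff.2 (by omega)⟩
  · rintro ⟨h1, h2⟩
    rw [padicValNat.eq_zero_of_not_dvd (n := a) (fun h => by rw [Nat.odd_iff] at h1; omega),
      padicValNat.eq_zero_of_not_dvd (n := b) (fun h => by rw [Nat.odd_iff] at h2; omega)]

lemma Solution.pos {k l : ℕ} {x : ℕ → ℝ} (h : Solution k l x) (h0 : ∀ i ≤ max k l, 0 < x i) :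
    ∀ n, 0 < x n := by
  intro n
  induction n using Nat.strong_induction_on with
  | _ n ih =>
    rcases Nat.lt_or_ge (max k l) n with hn | hn
    · obtain ⟨m, rfl⟩ : ∃ m, n = m + max k l + 1 := ⟨n - max k l - 1, by omega⟩
      rw [h m]
      have h1 := ih (m + max k l - k) (by omega)
      have h2 := ih (m + max k l - l) (by omega)
      positivity
    · exact h0 n hn

lemma Solution.unique {k l : ℕ} {x y : ℕ → ℝ} (hx : Solution k l x) (hy : Solution k l y)
    (h0 : ∀ i ≤ max k l, x i = y i) : x = y := by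
  funext n
  induction n using Nat.strong_induction_on with
  | _ n ih =>
    rcases Nat.lt_or_ge (max k l) n with hn | hn
    · obtain ⟨m, rfl⟩ : ∃ m, n = m + max k l + 1 := ⟨n - max k l - 1, by omega⟩
      rw [hx m, hy m, ih (m + max k l - k) (by omega), ih (m + max k l - l) (by omega)]
    · exact h0 n hn

/-- The solution with given initial values. -/
noncomputable def orb (k l : ℕ) (v : Fin (max k l + 1) → ℝ) (n : ℕ) : ℝ :=
  if h : n < max k l + 1 then v ⟨n, h⟩
  else 1 / orb k l v (n - 1 - k) + 1 / orb k l v (n - 1 - l)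
termination_by n
decreasing_by all_goals omega

lemma orb_init (k l : ℕ) (v : Fin (max k l + 1) → ℝ) (i : Fin (max k l + 1)) :
    orb k l v i = v i := by
  rw [orb, dif_pos i.2]

lemma orb_sol (k l : ℕ) (v : Fin (max k l + 1) → ℝ) : Solution k l (orb k l v) := by
  intro n
  rw [orb, dif_neg (by omega)]
  have e1 : n + max k l + 1 - 1 - k = n + max k l - k := by omega
  have e2 : n + max k l + 1 - 1 - l = n + max k l - l := by omega
  rw [e1, e2]

lemma orb_pos {k l : ℕ} {v : Fin (max k l + 1) → ℝ} (hv : ∀ i, 0 < v i) : ∀ n, 0 < orb k l v n := by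
  refine (orb_sol k l v).pos fun i hi => ?_
  have := orb_init k l v ⟨i, by omega⟩
  simp only at this
  rw [this]
  exact hv _

lemma mem_basin_iff {k l : ℕ} {v : Fin (max k l + 1) → ℝ} (hv : ∀ i, 0 < v i) :
    v ∈ Basin k l ↔ Tendsto (orb k l v) atTop (𝓝 √2) := by
  constructor
  · rintro ⟨-, x, hx0, hxs, hxt⟩
    have : x = orb k l v := hxs.unique (orb_sol k l v) fun i hi => by
      have h1 := hx0 ⟨i, by omega⟩
      have h2 := orb_init k l v ⟨i, by omega⟩
      simp only at h1 h2
      rw [h1, h2]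
    rwa [← this]
  · intro h
    exact ⟨hv, _, orb_init k l v, orb_sol k l v, h⟩

/-! ### Case of different parity -/

lemma all_of_odd {k l : ℕ} {x : ℕ → ℝ} (hx : Solution k l x) (h0 : ∀ n, 0 < x n)
    (h : padicValNat 2 (k + 1) ≠ padicValNat 2 (l + 1)) : Tendsto x atTop (𝓝 √2) := by
  obtain ⟨a, b, ha, hb, hab, hk, hl⟩ := setup k l
  have hodd : Odd (a + b) := by
    rw [hk, hl, Ne, val_iff (gg_pos k l) ha hb hab] at h
    have h2 : ¬ (Even a ∧ Even b) := by
      rintro ⟨h1, h2⟩
      have := Nat.dvd_gcd h1.two_dvd h2.two_dvd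
      rw [hab] at this
      omega
    rw [Nat.odd_add]
    rw [not_and_or, Nat.not_odd_iff_even, Nat.not_odd_iff_even] at h
    rw [not_and_or, Nat.not_even_iff_odd, Nat.not_even_iff_odd] at h2
    rcases h with h | h <;> rcases h2 with h2 | h2
    · exact absurd h (Nat.not_even_iff_odd.2 h2)
    · constructor
      · intro h3; exact absurd h (Nat.not_even_iff_odd.2 h3)
      · intro h3; exact absurd h3 (Nat.not_even_iff_odd.2 h2)
    · exact ⟨fun _ => h, fun _ => h2⟩
    · exact absurd h (Nat.not_even_iff_odd.2 h2)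
  have hs2 : (0 : ℝ) < √2 := by positivity
  have hsq : √2 * √2 = (2 : ℝ) := Real.mul_self_sqrt (by norm_num)
  have := odd_converges (g := gg k l) (a := a) (b := b) (M := max k l) (gg_pos k l) ha hb hab hodd
    (by rw [← hk]; omega) (by rw [← hl]; omega) (s := fun n => x n / √2)
    (fun n => div_pos (h0 n) hs2) (fun t ht => by
      obtain ⟨m, rfl⟩ : ∃ m, t = m + max k l + 1 := ⟨t - max k l - 1, by omega⟩
      rw [← hk, ← hl, hx m]
      have e1 : m + max k l + 1 - (k + 1) = m + max k l - k := by omega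
      have e2 : m + max k l + 1 - (l + 1) = m + max k l - l := by omega
      rw [e1, e2]
      have h1 := h0 (m + max k l - k)
      have h2 := h0 (m + max k l - l)
      field_simp
      nlinarith)
  have h3 := this.mul_const √2
  rw [one_mul] at h3
  refine h3.congr fun n => ?_
  field_simp

/-! ### Case of equal valuations -/

lemma tendsto_of_residues {g : ℕ} (hg : 0 < g) {u : ℕ → ℝ} {c : ℝ}
    (h : ∀ r < g, Tendsto (fun j => u (r + g * j)) atTop (𝓝 c)) : Tendsto u atTop (𝓝 c) := by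
  rw [Metric.tendsto_atTop]
  intro ε hε
  have h1 : ∀ r : Fin g, ∃ N, ∀ j ≥ N, dist (u (r + g * j)) c < ε := fun r =>
    (Metric.tendsto_atTop.1 (h r r.2)) ε hε
  choose N hN using h1
  refine ⟨g * (∑ r, N r + 1), fun n hn => ?_⟩
  have hr : n % g < g := Nat.mod_lt _ hg
  have h2 := hN ⟨n % g, hr⟩ (n / g) (by
    have h3 : N ⟨n % g, hr⟩ ≤ ∑ r, N r := Finset.single_le_sum (fun i _ => Nat.zero_le _)
      (Finset.mem_univ (⟨n % g, hr⟩ : Fin g))
    have h4 : ∑ r, N r + 1 ≤ n / g := by
      rw [Nat.le_div_iff_mul_le hg, mul_comm]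
      exact hn
    show N ⟨n % g, hr⟩ ≤ n / g
    omega)
  simp only [Nat.mod_add_div] at h2
  exact h2

/-- the auxiliary sequence of a residue class -/
noncomputable def ws (g : ℕ) (x : ℕ → ℝ) (r j : ℕ) : ℝ :=
  if Even j then x (r + g * j) else 2 / x (r + g * j)

lemma ws_mean {g a b : ℕ} {x : ℕ → ℝ} (hpos : ∀ n, 0 < x n) (ha : Odd a) (hb : Odd b)
    (hx : ∀ t, g * max a b ≤ t → x t = 1 / x (t - g * a) + 1 / x (t - g * b)) (r : ℕ) :
    ∀ t, max a b ≤ t → Mean (ws g x r t) (ws g x r (t - a)) (ws g x r (t - b)) := by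
  intro t ht
  have h1 := hx (r + g * t) (by
    have := Nat.mul_le_mul_left g ht
    omega)
  have hta : a ≤ t := le_trans (le_max_left _ _) ht
  have htb : b ≤ t := le_trans (le_max_right _ _) ht
  have e1 : r + g * t - g * a = r + g * (t - a) := by
    rw [Nat.mul_sub]
    have := Nat.mul_le_mul_left g hta
    omega
  have e2 : r + g * t - g * b = r + g * (t - b) := by
    rw [Nat.mul_sub]
    have := Nat.mul_le_mul_left g htb
    omega
  rw [e1, e2] at h1
  have p1 := hpos (r + g * (t - a))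
  have p2 := hpos (r + g * (t - b))
  rcases Nat.even_or_odd t with he | ho
  · have h2 : ¬ Even (t - a) := by
      rw [Nat.even_sub hta]
      intro h
      exact (Nat.not_even_iff_odd.2 ha) (h.1 he)
    have h3 : ¬ Even (t - b) := by
      rw [Nat.even_sub htb]
      intro h
      exact (Nat.not_even_iff_odd.2 hb) (h.1 he)
    left
    simp only [ws, if_pos he, if_neg h2, if_neg h3]
    rw [h1]
    ring
  · have h0 : ¬ Even t := Nat.not_even_iff_odd.2 ho
    have h2 : Even (t - a) := Nat.Odd.sub_odd ho ha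
    have h3 : Even (t - b) := Nat.Odd.sub_odd ho hb
    right
    simp only [ws, if_pos h2, if_pos h3, if_neg h0]
    rw [h1]

/-- Along a positive solution the auxiliary sequences are iterated means. -/
lemma means_equal {k l : ℕ} (h : padicValNat 2 (k + 1) = padicValNat 2 (l + 1)) :
    ∃ a b : ℕ, 1 ≤ a ∧ 1 ≤ b ∧ Nat.Coprime a b ∧
      ∀ x : ℕ → ℝ, Solution k l x → (∀ n, 0 < x n) → ∀ r t, max a b - 1 + 1 ≤ t →
        Mean (ws (gg k l) x r t) (ws (gg k l) x r (t - a)) (ws (gg k l) x r (t - b)) := by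
  obtain ⟨a, b, ha, hb, hab, hk, hl⟩ := setup k l
  rw [hk, hl, val_iff (gg_pos k l) ha hb hab] at h
  refine ⟨a, b, ha, hb, hab, fun x hx hpos r t ht => ?_⟩
  have hmax : gg k l * max a b = max k l + 1 := by
    rw [← Nat.mul_max_mul_left, ← hk, ← hl]
    omega
  refine ws_mean hpos h.1 h.2 (fun t ht => ?_) r t (by omega)
  rw [hmax] at ht
  obtain ⟨m, rfl⟩ : ∃ m, t = m + max k l + 1 := ⟨t - max k l - 1, by omega⟩
  rw [← hk, ← hl, hx m]
  have e1 : m + max k l + 1 - (k + 1) = m + max k l - k := by omega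
  have e2 : m + max k l + 1 - (l + 1) = m + max k l - l := by omega
  rw [e1, e2]

lemma ws_pos {g : ℕ} {x : ℕ → ℝ} (hpos : ∀ n, 0 < x n) (r n : ℕ) : 0 < ws g x r n := by
  have := hpos (r + g * n)
  unfold ws
  split_ifs <;> positivity

/-- Convergence to a periodic solution. -/
lemma conv_equal {k l : ℕ} (h : padicValNat 2 (k + 1) = padicValNat 2 (l + 1)) {x : ℕ → ℝ}
    (hx : Solution k l x) (hpos : ∀ n, 0 < x n) :
    ∃ c : Fin (gg k l) → ℝ, (∀ r, 0 < c r) ∧ ∀ r : Fin (gg k l),
      Tendsto (ws (gg k l) x r) atTop (𝓝 (c r)) := by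
  obtain ⟨a, b, ha, hb, hab, hm⟩ := means_equal h
  have h1 : ∀ r : Fin (gg k l), ∃ c : ℝ, 0 < c ∧ Tendsto (ws (gg k l) x r) atTop (𝓝 c) := fun r =>
    mean_converges (M := max a b - 1) ha hb hab (by omega) (by omega) (ws_pos hpos r)
      (hm x hx hpos r)
  choose c hc1 hc2 using h1
  exact ⟨c, hc1, hc2⟩

lemma cont_orb (k l n : ℕ) : ContinuousOn (fun v => orb k l v n) {v | ∀ i, 0 < v i} := by
  induction n using Nat.strong_induction_on with
  | _ n ih =>
    by_cases hn : n < max k l + 1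
    · have : (fun v => orb k l v n) = fun v => v ⟨n, hn⟩ := by
        funext v
        rw [orb, dif_pos hn]
      rw [this]
      exact (continuous_apply _).continuousOn
    · have : (fun v => orb k l v n) =
          fun v => 1 / orb k l v (n - 1 - k) + 1 / orb k l v (n - 1 - l) := by
        funext v
        rw [orb, dif_neg hn]
      rw [this]
      exact (continuousOn_const.div (ih _ (by omega)) fun v hv => (orb_pos hv _).ne').add
        (continuousOn_const.div (ih _ (by omega)) fun v hv => (orb_pos hv _).ne')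

lemma cont_ws (k l g r j : ℕ) :
    ContinuousOn (fun v => ws g (orb k l v) r j) {v | ∀ i, 0 < v i} := by
  by_cases he : Even j
  · simp only [ws, if_pos he]
    exact cont_orb k l _
  · simp only [ws, if_neg he]
    exact continuousOn_const.div (cont_orb k l _) fun v hv => (orb_pos hv _).ne'

/-- The limits depend continuously on the initial values. -/
lemma cont_lim {k l : ℕ} (h : padicValNat 2 (k + 1) = padicValNat 2 (l + 1))
    {C : (Fin (max k l + 1) → ℝ) → Fin (gg k l) → ℝ}
    (hC : ∀ v, (∀ i, 0 < v i) → ∀ r : Fin (gg k l),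
      Tendsto (ws (gg k l) (orb k l v) r) atTop (𝓝 (C v r))) :
    ContinuousOn C {v | ∀ i, 0 < v i} := by
  obtain ⟨a, b, ha, hb, hab, hm⟩ := means_equal h
  rw [continuousOn_pi]
  intro r v0 hv0
  rw [ContinuousWithinAt, Metric.tendsto_nhds]
  intro ε hε
  obtain ⟨J, hJ⟩ := Metric.tendsto_atTop.1 (hC v0 hv0 r) (ε / 2) (by positivity)
  have hev : ∀ i ∈ Finset.range (max a b - 1 + 1), ∀ᶠ v in 𝓝[{v | ∀ i, 0 < v i}] v0,
      dist (ws (gg k l) (orb k l v) r (J + i)) (C v0 r) < ε / 2 := by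
    intro i _
    have h1 := cont_ws k l (gg k l) r (J + i) v0 hv0
    have h2 := hJ (J + i) (by omega)
    exact (h1.dist tendsto_const_nhds).eventually_lt_const h2
  rw [← Filter.eventually_all_finset] at hev
  filter_upwards [hev, self_mem_nhdsWithin] with v hv hpos
  have hw := fun n => ws_pos (g := gg k l) (orb_pos hpos) r n
  have hmv := hm _ (orb_sol k l v) (orb_pos hpos) r
  have i1 := mean_inv (M := max a b - 1) ha hb (by omega) (by omega) hw hmv
  have i2 := mean_inv_neg (M := max a b - 1) ha hb (by omega) (by omega) hw hmv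
  have u1 : ∀ n, ws (gg k l) (orb k l v) r (J + n) ≤ C v0 r + ε / 2 := i1.all fun i hi => by
    have := hv i (Finset.mem_range.2 (by omega))
    rw [Real.dist_eq, abs_lt] at this
    linarith
  have u2 : ∀ n, - ws (gg k l) (orb k l v) r (J + n) ≤ - (C v0 r - ε / 2) :=
    i2.all fun i hi => by
      have := hv i (Finset.mem_range.2 (by omega))
      rw [Real.dist_eq, abs_lt] at this
      linarith
  have hlim := hC v hpos r
  have l1 : C v r ≤ C v0 r + ε / 2 := le_of_tendsto hlim (by
    filter_upwards [eventually_ge_atTop J] with n hn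
    have := u1 (n - J)
    rwa [Nat.add_sub_cancel' hn] at this)
  have l2 : C v0 r - ε / 2 ≤ C v r := ge_of_tendsto hlim (by
    filter_upwards [eventually_ge_atTop J] with n hn
    have := u2 (n - J)
    rw [Nat.add_sub_cancel' hn] at this
    linarith)
  rw [Real.dist_eq, abs_lt]
  constructor <;> linarith

lemma tendsto_two_mul : Tendsto (fun j : ℕ => 2 * j) atTop atTop :=
  tendsto_atTop_mono (fun j => by simp only [id]; omega) tendsto_id

lemma tendsto_two_mul_add : Tendsto (fun j : ℕ => 2 * j + 1) atTop atTop :=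
  tendsto_atTop_mono (fun j => by simp only [id]; omega) tendsto_id

lemma ws_limits {g r : ℕ} {x : ℕ → ℝ} {c : ℝ} (hc : 0 < c)
    (h : Tendsto (ws g x r) atTop (𝓝 c)) :
    Tendsto (fun j => x (r + g * (2 * j))) atTop (𝓝 c) ∧
      Tendsto (fun j => x (r + g * (2 * j + 1))) atTop (𝓝 (2 / c)) := by
  constructor
  · refine (h.comp tendsto_two_mul).congr fun j => ?_
    simp [Function.comp, ws]
  · have h1 : Tendsto (fun j => 2 / ws g x r (2 * j + 1)) atTop (𝓝 (2 / c)) :=
      Tendsto.div tendsto_const_nhds (h.comp tendsto_two_mul_add) hc.ne'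
    refine h1.congr fun j => ?_
    have h2 : ¬ Even (2 * j + 1) := Nat.not_even_iff_odd.2 (odd_two_mul_add_one j)
    simp only [ws, if_neg h2]
    rw [div_div_eq_mul_div, mul_div_cancel_left₀ _ (two_ne_zero)]

/-- A solution lies in the basin iff all auxiliary limits are `√2`. -/
lemma basin_iff_ws {g : ℕ} (hg : 0 < g) {x : ℕ → ℝ} {c : Fin g → ℝ} (hc : ∀ r, 0 < c r)
    (h : ∀ r : Fin g, Tendsto (ws g x r) atTop (𝓝 (c r))) :
    Tendsto x atTop (𝓝 √2) ↔ ∀ r, c r = √2 := by
  constructor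
  · intro hx r
    have h1 := (ws_limits (hc r) (h r)).1
    refine tendsto_nhds_unique h1 (hx.comp ?_)
    refine tendsto_atTop_mono (fun j => ?_) tendsto_id
    simp only [id]
    nlinarith [Nat.zero_le (r : ℕ), Nat.mul_le_mul_right (2 * j) hg]
  · intro hcr
    refine tendsto_of_residues hg fun r hr => ?_
    have h1 := h ⟨r, hr⟩
    rw [hcr] at h1
    have hs2 : (0 : ℝ) < √2 := by positivity
    have hsq : √2 * √2 = (2 : ℝ) := Real.mul_self_sqrt (by norm_num)
    have h2 : Tendsto (fun j => 2 / ws g x r j) atTop (𝓝 √2) := by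
      have h3 := (Tendsto.div (f := fun _ : ℕ => (2 : ℝ)) tendsto_const_nhds h1 hs2.ne')
      have h4 : 2 / √2 = √2 := by
        rw [div_eq_iff hs2.ne']; exact hsq.symm
      rwa [h4] at h3
    have h5 := h1.if' (p := fun j : ℕ => Even j) h2
    refine h5.congr fun j => ?_
    by_cases he : Even j
    · simp only [if_pos he, ws]
    · simp only [if_neg he, ws]
      rw [div_div_eq_mul_div, mul_div_cancel_left₀ _ (two_ne_zero)]

/-- The action of the factors on sequences. -/
noncomputable def sc (k l : ℕ) (ρ : Fin (gg k l) → ℝ) (x : ℕ → ℝ) (n : ℕ) : ℝ :=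
  if Even (n / gg k l) then ρ (res k l n) * x n else x n / ρ (res k l n)

lemma sc_sol {k l : ℕ} (h : padicValNat 2 (k + 1) = padicValNat 2 (l + 1))
    {ρ : Fin (gg k l) → ℝ} (hρ : ∀ r, 0 < ρ r) {x : ℕ → ℝ}
    (hx : Solution k l x) (hpos : ∀ n, 0 < x n) : Solution k l (sc k l ρ x) := by
  obtain ⟨a, b, ha, hb, hab, hk, hl⟩ := setup k l
  rw [hk, hl, val_iff (gg_pos k l) ha hb hab] at h
  have key : ∀ (c : ℕ), Odd c → ∀ n : ℕ, gg k l * c ≤ n →
      res k l (n - gg k l * c) = res k l n ∧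
      (Even ((n - gg k l * c) / gg k l) ↔ ¬ Even (n / gg k l)) := by
    intro c hc n hn
    constructor
    · simp only [res, Nat.sub_mul_mod hn]
    · rw [Nat.sub_mul_div]
      have hcn : c ≤ n / gg k l := by
        rw [Nat.le_div_iff_mul_le (gg_pos k l), mul_comm]; exact hn
      rw [Nat.even_sub hcn]
      have : ¬ Even c := Nat.not_even_iff_odd.2 hc
      tauto
  intro n
  have k1 := key a h.1 (n + max k l + 1) (by rw [← hk]; omega)
  have k2 := key b h.2 (n + max k l + 1) (by rw [← hl]; omega)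
  rw [← hk] at k1
  rw [← hl] at k2
  have e1 : n + max k l + 1 - (k + 1) = n + max k l - k := by omega
  have e2 : n + max k l + 1 - (l + 1) = n + max k l - l := by omega
  rw [e1] at k1
  rw [e2] at k2
  unfold sc
  rw [k1.1, k2.1, hx n]
  have p1 := hpos (n + max k l - k)
  have p2 := hpos (n + max k l - l)
  have p3 := hρ (res k l (n + max k l + 1))
  by_cases he : Even ((n + max k l + 1) / gg k l)
  · rw [if_pos he, if_neg (fun h => k1.2.1 h he), if_neg (fun h => k2.2.1 h he)]
    field_simp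
  · rw [if_neg he, if_pos (k1.2.2 he), if_pos (k2.2.2 he)]
    field_simp

lemma sc_pos {k l : ℕ} {ρ : Fin (gg k l) → ℝ} (hρ : ∀ r, 0 < ρ r) {x : ℕ → ℝ}
    (hpos : ∀ n, 0 < x n) (n : ℕ) : 0 < sc k l ρ x n := by
  have := hρ (res k l n)
  have := hpos n
  unfold sc
  split_ifs <;> positivity

lemma sc_ws {k l : ℕ} {ρ : Fin (gg k l) → ℝ} (x : ℕ → ℝ) (r : Fin (gg k l)) (j : ℕ) :
    ws (gg k l) (sc k l ρ x) r j = ρ r * ws (gg k l) x r j := by
  have hg := gg_pos k l
  have h1 : (r + gg k l * j) / gg k l = j := by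
    rw [Nat.add_mul_div_left _ _ hg, Nat.div_eq_of_lt r.2, zero_add]
  have h2 : res k l (r + gg k l * j) = r := by
    apply Fin.ext
    simp only [res, Nat.add_mul_mod_self_left]
    exact Nat.mod_eq_of_lt r.2
  unfold ws sc
  rw [h1, h2]
  by_cases he : Even j
  · rw [if_pos he, if_pos he, if_pos he]
  · rw [if_neg he, if_neg he, if_neg he]
    rw [div_div_eq_mul_div, mul_comm 2 (ρ r), mul_div_assoc]

lemma orb_scale {k l : ℕ} (h : padicValNat 2 (k + 1) = padicValNat 2 (l + 1))
    {ρ : Fin (gg k l) → ℝ} (hρ : ∀ r, 0 < ρ r) {v : Fin (max k l + 1) → ℝ} (hv : ∀ i, 0 < v i) :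
    orb k l (scale k l ρ v) = sc k l ρ (orb k l v) := by
  refine (orb_sol k l _).unique (sc_sol h hρ (orb_sol k l v) (orb_pos hv)) fun i hi => ?_
  have h1 := orb_init k l (scale k l ρ v) ⟨i, by omega⟩
  have h2 := orb_init k l v ⟨i, by omega⟩
  simp only at h1 h2
  rw [h1, scale, sc, h2]

lemma scale_pos {k l : ℕ} {ρ : Fin (gg k l) → ℝ} (hρ : ∀ r, 0 < ρ r)
    {v : Fin (max k l + 1) → ℝ} (hv : ∀ i, 0 < v i) : ∀ i, 0 < scale k l ρ v i := by
  intro i
  have := hρ (res k l i)
  have := hv i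
  unfold scale
  split_ifs <;> positivity

lemma scale_mem_iff {k l : ℕ} (h : padicValNat 2 (k + 1) = padicValNat 2 (l + 1))
    {ρ : Fin (gg k l) → ℝ} (hρ : ∀ r, 0 < ρ r) {v : Fin (max k l + 1) → ℝ} (hv : ∀ i, 0 < v i)
    {c : Fin (gg k l) → ℝ} (hc : ∀ r, 0 < c r)
    (hlim : ∀ r : Fin (gg k l), Tendsto (ws (gg k l) (orb k l v) r) atTop (𝓝 (c r))) :
    scale k l ρ v ∈ Basin k l ↔ ∀ r, ρ r * c r = √2 := by
  rw [mem_basin_iff (scale_pos hρ hv), orb_scale h hρ hv]
  refine basin_iff_ws (gg_pos k l) (c := fun r => ρ r * c r)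
    (fun r => mul_pos (hρ r) (hc r)) fun r => ?_
  refine ((hlim r).const_mul (ρ r)).congr fun j => ?_
  exact (sc_ws _ r j).symm

/-- The dichotomy, and the structure of the basin in the case of equal valuations. -/
theorem basin_structure (k l : ℕ) :
    (Basin k l = {v | ∀ i, 0 < v i} ↔ padicValNat 2 (k + 1) ≠ padicValNat 2 (l + 1)) ∧
    (padicValNat 2 (k + 1) = padicValNat 2 (l + 1) →
      (∀ v : Fin (max k l + 1) → ℝ, (∀ i, 0 < v i) →
        ∃! ρ : Fin (gg k l) → ℝ, (∀ r, 0 < ρ r) ∧ scale k l ρ v ∈ Basin k l) ∧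
      ∃ C : (Fin (max k l + 1) → ℝ) → Fin (gg k l) → ℝ,
        ContinuousOn C {v | ∀ i, 0 < v i} ∧
        (∀ v, (∀ i, 0 < v i) → ∀ r, 0 < C v r) ∧
        (∀ v, (∀ i, 0 < v i) → ∀ ρ : Fin (gg k l) → ℝ, (∀ r, 0 < ρ r) →
          ∀ r, C (scale k l ρ v) r = ρ r * C v r) ∧
        (∀ v, v ∈ Basin k l ↔ (∀ i, 0 < v i) ∧ ∀ r, C v r = √2) ∧
        ∀ x : ℕ → ℝ, Solution k l x → (∀ i ≤ max k l, 0 < x i) → ∀ r : Fin (gg k l),
          Tendsto (fun j => x (r + gg k l * (2 * j))) atTop (𝓝 (C (fun i => x i) r)) ∧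
          Tendsto (fun j => x (r + gg k l * (2 * j + 1))) atTop (𝓝 (2 / C (fun i => x i) r))) := by
  have hs2 : (0 : ℝ) < √2 := by positivity
  have hB : padicValNat 2 (k + 1) = padicValNat 2 (l + 1) →
      ∀ v : Fin (max k l + 1) → ℝ, (∀ i, 0 < v i) →
        ∃! ρ : Fin (gg k l) → ℝ, (∀ r, 0 < ρ r) ∧ scale k l ρ v ∈ Basin k l := by
    intro h v hv
    obtain ⟨c, hc, hlim⟩ := conv_equal h (orb_sol k l v) (orb_pos hv)
    refine ⟨fun r => √2 / c r, ⟨fun r => div_pos hs2 (hc r), ?_⟩, ?_⟩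
    · rw [scale_mem_iff h (fun r => div_pos hs2 (hc r)) hv hc hlim]
      intro r
      exact div_mul_cancel₀ _ (hc r).ne'
    · rintro ρ ⟨hρ, hmem⟩
      rw [scale_mem_iff h hρ hv hc hlim] at hmem
      funext r
      rw [eq_div_iff (hc r).ne']
      exact hmem r
  refine ⟨⟨fun hE h => ?_, fun h => ?_⟩, fun h => ⟨hB h, ?_⟩⟩
  · obtain ⟨ρ, -, huniq⟩ := hB h (fun _ => 1) (fun _ => one_pos)
    have h1 := huniq (fun _ => 1) ⟨fun _ => one_pos, by
      rw [hE]; exact scale_pos (fun _ => one_pos) (fun _ => one_pos)⟩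
    have h2 := huniq (fun _ => 2) ⟨fun _ => two_pos, by
      rw [hE]; exact scale_pos (fun _ => two_pos) (fun _ => one_pos)⟩
    have h3 := congrFun (h1.trans h2.symm) ⟨0, gg_pos k l⟩
    norm_num at h3
  · ext v
    constructor
    · intro hv
      exact hv.1
    · intro hv
      rw [mem_basin_iff hv]
      exact all_of_odd (orb_sol k l v) (orb_pos hv) h
  · have hex : ∀ v : Fin (max k l + 1) → ℝ, ∃ c : Fin (gg k l) → ℝ, (∀ i, 0 < v i) →
        ((∀ r, 0 < c r) ∧ ∀ r : Fin (gg k l),
          Tendsto (ws (gg k l) (orb k l v) r) atTop (𝓝 (c r))) := by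
      intro v
      by_cases hv : ∀ i, 0 < v i
      · obtain ⟨c, hc⟩ := conv_equal h (orb_sol k l v) (orb_pos hv)
        exact ⟨c, fun _ => hc⟩
      · exact ⟨fun _ => 1, fun h => absurd h hv⟩
    choose C hC using hex
    refine ⟨C, cont_lim h fun v hv => (hC v hv).2, fun v hv => (hC v hv).1,
      fun v hv ρ hρ r => ?_, fun v => ⟨fun hv => ⟨hv.1, ?_⟩, fun hv => ?_⟩, fun x hx h0 r => ?_⟩
    · have h1 := (hC _ (scale_pos hρ hv)).2 r
      rw [orb_scale h hρ hv] at h1
      refine tendsto_nhds_unique h1 ((((hC v hv).2 r).const_mul (ρ r)).congr fun j => ?_)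
      exact (sc_ws _ r j).symm
    · exact (basin_iff_ws (gg_pos k l) (hC v hv.1).1 (hC v hv.1).2).1 ((mem_basin_iff hv.1).1 hv)
    · exact (mem_basin_iff hv.1).2 ((basin_iff_ws (gg_pos k l) (hC v hv.1).1 (hC v hv.1).2).2 hv.2)
    · have hxo : x = orb k l (fun i => x i) := hx.unique (orb_sol k l _) fun i hi => by
        have h2 := orb_init k l (fun i => x i) ⟨i, by omega⟩
        simp only at h2
        rw [h2]
      have hv : ∀ i : Fin (max k l + 1), 0 < x i := fun i => h0 i (by omega)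
      have h1 := (hC (fun i => x i) hv).2 r
      rw [← hxo] at h1
      exact ws_limits ((hC (fun i => x i) hv).1 r) h1

end Pool.Agent.Q247194.Basin
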